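import Pool.Agent.Helper89.OS.St1

/-! # OS module AUT -/

set_option autoImplicit false

namespace Pool.Agent.Helper90.OS

open Matrix Pool.Agent.Helper94.YF Pool.Agent.Helper94.YG Pool.Agent.Helper89.OS

/-- an automorphism of a field `K` extends to an automorphism of an algebraically closed extension `ℂ` -/
private theorem ext_aut {K : Type} [Field K] [Algebra K ℂ] (t : K ≃+* K) :
    ∃ s : ℂ ≃+* ℂ, ∀ x, s (algebraMap K ℂ x) = algebraMap K ℂ (t x) := by
  have hinj : Function.Injective (algebraMap K ℂ) := (algebraMap K ℂ).injective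
  obtain ⟨w, hw⟩ := exists_isTranscendenceBasis K ℂ
  let _ := IsAlgClosed.isAlgClosure_of_transcendence_basis _ hw
  let e : Algebra.adjoin K (Set.range ((↑) : w → ℂ)) ≃+*
      Algebra.adjoin K (Set.range ((↑) : w → ℂ)) :=
    (hw.1.aevalEquiv.symm.toRingEquiv.trans (MvPolynomial.mapEquiv w t)).trans
      hw.1.aevalEquiv.toRingEquiv
  refine ⟨IsAlgClosure.equivOfEquiv ℂ ℂ e, fun x => ?_⟩
  have h1 : algebraMap (Algebra.adjoin K (Set.range ((↑) : w → ℂ))) ℂ
      (algebraMap K _ x) = algebraMap K ℂ x := rfl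
  have h2 : e (algebraMap K _ x) = algebraMap K _ (t x) := by
    change hw.1.aevalEquiv (MvPolynomial.mapEquiv w t (hw.1.aevalEquiv.symm
      (algebraMap K _ x))) = _
    rw [AlgEquiv.commutes, MvPolynomial.algebraMap_eq, MvPolynomial.mapEquiv_apply,
      MvPolynomial.map_C, ← MvPolynomial.algebraMap_eq, AlgEquiv.commutes]
    rfl
  rw [← h1, IsAlgClosure.equivOfEquiv_algebraMap, h2]
  rfl

/-- automorphisms of `ℂ` act on roots of unity by arbitrary exponents prime to the order -/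
private theorem cyc_aut' (L : ℕ) (hL : 0 < L) (c : (ZMod L)ˣ) (K : Type) [Field K] [Algebra ℚ K]
    [IsCyclotomicExtension {L} ℚ K] [Algebra K ℂ] :
    ∃ s : ℂ ≃+* ℂ, ∀ x : ℂ, x ^ L = 1 → s x = x ^ (c : ZMod L).val := by
  have : NeZero L := ⟨hL.ne'⟩
  have hz := IsCyclotomicExtension.zeta_spec L ℚ K
  have hzc : IsPrimitiveRoot (IsCyclotomicExtension.zeta L ℚ K ^ (c : ZMod L).val) L :=
    hz.pow_of_coprime _ (ZMod.val_coe_unit_coprime c)
  obtain ⟨t, ht⟩ : ∃ t : K ≃ₐ[ℚ] K, t (IsCyclotomicExtension.zeta L ℚ K) =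
      IsCyclotomicExtension.zeta L ℚ K ^ (c : ZMod L).val :=
    ⟨_, IsCyclotomicExtension.fromZetaAut_spec hzc (Polynomial.cyclotomic.irreducible_rat hL)⟩
  obtain ⟨s, hs⟩ := ext_aut (K := K) t.toRingEquiv
  refine ⟨s, fun x hx => ?_⟩
  have hzf : IsPrimitiveRoot (algebraMap K ℂ (IsCyclotomicExtension.zeta L ℚ K)) L :=
    hz.map_of_injective (algebraMap K ℂ).injective
  obtain ⟨k, _, rfl⟩ := hzf.eq_pow_of_pow_eq_one hx
  have h3 := hs (IsCyclotomicExtension.zeta L ℚ K)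
  have h4 : t.toRingEquiv (IsCyclotomicExtension.zeta L ℚ K) =
      IsCyclotomicExtension.zeta L ℚ K ^ (c : ZMod L).val := ht
  rw [map_pow, h3, h4, map_pow, ← pow_mul, ← pow_mul, mul_comm]

private theorem cyc_aut (L : ℕ) (hL : 0 < L) (c : (ZMod L)ˣ) :
    ∃ s : ℂ ≃+* ℂ, ∀ x : ℂ, x ^ L = 1 → s x = x ^ (c : ZMod L).val := by
  have : NeZero L := ⟨hL.ne'⟩
  have : NeZero ((L : ℕ) : ℚ) := ⟨by exact_mod_cast hL.ne'⟩
  let f : CyclotomicField L ℚ →ₐ[ℚ] ℂ := IsAlgClosed.lift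
  exact @cyc_aut' L hL c (CyclotomicField L ℚ) _ (CyclotomicField.algebra L ℚ)
    (CyclotomicField.isCyclotomicExtension L ℚ) f.toRingHom.toAlgebra

private theorem U_pow {L : ℕ} (k : ℕ) : (U (1 : ZMod L)) ^ k = U (k : ZMod L) := by
  induction k with
  | zero =>
    refine Subtype.ext ?_
    ext i j
    fin_cases i <;> fin_cases j <;> simp [U]
  | succ k ih =>
    rw [pow_succ, ih]
    refine Subtype.ext ?_
    ext i j
    fin_cases i <;> fin_cases j <;> simp [U, Matrix.mul_apply, Fin.sum_univ_two, add_comm]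

theorem hAUT : StAUT := by
  intro I _ _ Z c
  have hL := Z.L_pos
  have : NeZero Z.L := ⟨hL.ne'⟩
  obtain ⟨s, hs⟩ := cyc_aut Z.L hL c
  obtain ⟨c', hc'⟩ := Z.galois s
  have hU : ∀ (k : ℕ) (i : I), Z.rho (U (k : ZMod Z.L)) i i = Z.th i ^ k := by
    intro k i
    rw [← U_pow, map_pow, Z.rho_T, Matrix.diagonal_pow, Matrix.diagonal_apply_eq, Pi.pow_apply]
  have hth : ∀ i, Z.th i ^ Z.L = 1 := by
    intro i
    rw [← hU Z.L i, ZMod.natCast_self]
    have h0 : (U (0 : ZMod Z.L)) = 1 := by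
      refine Subtype.ext ?_
      ext i j
      fin_cases i <;> fin_cases j <;> simp [U]
    rw [h0, map_one, Matrix.one_apply_eq]
  have hkey : ∀ i, Z.th i ^ (c' : ZMod Z.L).val = Z.th i ^ (c : ZMod Z.L).val := by
    intro i
    have h1 := hc' (U 1) (U (c' : ZMod Z.L)) (by simp [U]) (by simp [U]) (by simp [U])
      (by simp [U]) i i
    have h2 := hU (c' : ZMod Z.L).val i
    rw [ZMod.natCast_zmod_val] at h2
    rw [h2, Z.rho_T, Matrix.diagonal_apply_eq, hs _ (hth i)] at h1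
    exact h1
  have hlt : (c : ZMod Z.L).val < Z.L := ZMod.val_lt _
  have hdvd : Z.L ∣ (c' : ZMod Z.L).val + (Z.L - (c : ZMod Z.L).val) := by
    refine Z.th_order _ fun i => ?_
    rw [pow_add, hkey, ← pow_add, Nat.add_sub_cancel' hlt.le, hth]
  have hcc : (c' : ZMod Z.L) = (c : ZMod Z.L) := by
    have h3 := (ZMod.natCast_eq_zero_iff _ _).2 hdvd
    rw [Nat.cast_add, Nat.cast_sub hlt.le, ZMod.natCast_zmod_val, ZMod.natCast_zmod_val,
      ZMod.natCast_self, zero_sub, ← sub_eq_add_neg, sub_eq_zero] at h3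
    exact h3
  have hc : c' = c := Units.ext hcc
  subst hc
  exact ⟨s, hc'⟩

end Pool.Agent.Helper90.OS
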